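import Mathlib
import Pool.Agent.W662.KKS.Stmts

/-!
# Truncation
-/

set_option autoImplicit false

open scoped InnerProductSpace

namespace Pool.Agent.W82.KKS

open Pool.Agent.W662.KKS Pool.Agent.Helper278

variable {H : Type} [NormedAddCommGroup H] [InnerProductSpace ℂ H] [CompleteSpace H]

theorem inv_mem_vn (N : VonNeumannAlgebra H) {y z : H →L[ℂ] H} (hy : y ∈ N) (h1 : y * z = 1)
    (h2 : z * y = 1) : z ∈ N := by
  rw [← VonNeumannAlgebra.commutant_commutant N, VonNeumannAlgebra.mem_commutant_iff]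
  intro t ht
  have h3 : y * t = t * y := by
    rw [VonNeumannAlgebra.mem_commutant_iff] at ht
    exact ht y hy
  calc t * z = (z * y) * t * z := by rw [h2, one_mul]
    _ = z * (y * t) * z := by noncomm_ring
    _ = z * (t * y) * z := by rw [h3]
    _ = z * t * (y * z) := by noncomm_ring
    _ = z * t := by rw [h1, mul_one]

theorem trunc : S_TRUNC := by
  intro H _ _ _ M ξ ρ hS y hy L hL
  set z : H →L[ℂ] H := star y * y with hz
  set k : ℝ := 1 / (4 * L ^ 2) with hk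
  have hk0 : 0 < k := by positivity
  have hzM : z ∈ M := mul_mem (star_mem hy) hy
  have hzpos : 0 ≤ z := star_mul_self_nonneg y
  have hge : (1 : H →L[ℂ] H) ≤ 1 + k • z := le_add_of_nonneg_right (smul_nonneg hk0.le hzpos)
  have hunit : IsUnit (1 + k • z) := CStarAlgebra.isUnit_of_le 1 hge
  obtain ⟨U, hU⟩ := hunit
  set f : H →L[ℂ] H := ((U⁻¹ : (H →L[ℂ] H)ˣ) : H →L[ℂ] H) with hf
  have hUf : (1 + k • z) * f = 1 := by rw [← hU]; exact U.mul_inv
  have hfU : f * (1 + k • z) = 1 := by rw [← hU]; exact U.inv_mul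
  have hkz : k • z = ((k : ℂ)) • z := by
    ext v
    simp
  have hmem : 1 + k • z ∈ M := by
    rw [hkz]
    exact add_mem (one_mem M) (M.toStarSubalgebra.smul_mem hzM (k : ℂ))
  have hfM : f ∈ M := inv_mem_vn M hmem hUf hfU
  -- commutation
  have hcomm : z * f = f * z := by
    have h1 : z * (1 + k • z) = (1 + k • z) * z := by
      rw [mul_add, add_mul, mul_one, one_mul, mul_smul_comm, smul_mul_assoc]
    calc z * f = (f * (1 + k • z)) * z * f := by rw [hfU, one_mul]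
      _ = f * ((1 + k • z) * z) * f := by rw [mul_assoc f]
      _ = f * (z * (1 + k • z)) * f := by rw [h1]
      _ = f * z * ((1 + k • z) * f) := by simp only [mul_assoc]
      _ = f * z := by rw [hUf, mul_one]
  -- the bound
  have hb : ∀ v : H, ‖(y * f) v‖ ≤ L * ‖v‖ := by
    intro v
    set u : H := f v with hu
    have hv : v = u + k • z u := by
      have h1 : v = ((1 + k • z) * f) v := by rw [hUf]; rfl
      rw [h1]
      rfl
    have h1 : ‖y u‖ ^ 2 = (⟪z u, u⟫_ℂ).re := by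
      rw [hz]
      change _ = (⟪(star y) (y u), u⟫_ℂ).re
      rw [ContinuousLinearMap.star_eq_adjoint, ContinuousLinearMap.adjoint_inner_left]
      rw [inner_self_eq_norm_sq_to_K]
      norm_cast
    have h2 : ‖v‖ ^ 2 = ‖u‖ ^ 2 + 2 * (k * (⟪z u, u⟫_ℂ).re) + (k * ‖z u‖) ^ 2 := by
      rw [hv, norm_add_sq (𝕜 := ℂ), norm_smul, Real.norm_of_nonneg hk0.le]
      have h3 : RCLike.re ⟪u, k • z u⟫_ℂ = k * (⟪z u, u⟫_ℂ).re := by
        have h4 : k • z u = (k : ℂ) • z u := by simp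
        rw [h4, inner_smul_right]
        have h5 : (⟪u, z u⟫_ℂ).re = (⟪z u, u⟫_ℂ).re := inner_re_symm (𝕜 := ℂ) u (z u)
        change ((k : ℂ) * ⟪u, z u⟫_ℂ).re = _
        rw [Complex.re_ofReal_mul, h5]
      rw [h3]
    have h3 : (⟪z u, u⟫_ℂ).re ≤ ‖z u‖ * ‖u‖ := re_inner_le_norm (𝕜 := ℂ) (z u) u
    have h4 : ‖y u‖ ^ 2 ≤ (L * ‖v‖) ^ 2 := by
      have h5 : 4 * k * (⟪z u, u⟫_ℂ).re ≤ ‖v‖ ^ 2 := by
        rw [h2]
        nlinarith [sq_nonneg (‖u‖ - k * ‖z u‖), mul_le_mul_of_nonneg_left h3 hk0.le]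
      have h6 : 4 * k = 1 / L ^ 2 := by
        rw [hk]
        field_simp
      rw [h6] at h5
      rw [h1, mul_pow]
      have h7 : (0 : ℝ) < L ^ 2 := by positivity
      calc (⟪z u, u⟫_ℂ).re = L ^ 2 * (1 / L ^ 2 * (⟪z u, u⟫_ℂ).re) := by field_simp
        _ ≤ L ^ 2 * ‖v‖ ^ 2 := mul_le_mul_of_nonneg_left h5 h7.le
    change ‖y u‖ ≤ _
    exact le_of_sq_le_sq h4 (by positivity)
  refine ⟨y * f, mul_mem hy hfM, ContinuousLinearMap.opNorm_le_bound _ hL.le hb, ?_⟩
  have hdiff : y - y * f = (y * f) * (k • z) := by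
    have h1 : f + f * (k • z) = 1 := by
      rw [← mul_one_add] at *
      exact hfU
    have h2 : y = y * (f + f * (k • z)) := by rw [h1, mul_one]
    calc y - y * f = y * (f + f * (k • z)) - y * f := by rw [← h2]
      _ = (y * f) * (k • z) := by rw [mul_add, mul_assoc]; abel
  rw [hdiff]
  have h1 : ((y * f) * (k • z)) ξ = (y * f) (k • z ξ) := rfl
  rw [h1]
  refine (hb _).trans ?_
  rw [norm_smul, Real.norm_of_nonneg hk0.le, hk]
  have h2 : L * (1 / (4 * L ^ 2) * ‖z ξ‖) = (‖z ξ‖ / L) / 4 := by field_simp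
  rw [h2]
  have h3 : 0 ≤ ‖z ξ‖ / L := by positivity
  linarith

end Pool.Agent.W82.KKS
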