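import Mathlib
import Pool.Agent.W82.KKS.Trunc

/-!
# From commutation at the vector to equality
-/

set_option autoImplicit false
set_option maxHeartbeats 4000000

open scoped InnerProductSpace

namespace Pool.Agent.W82.KKS

open Pool.Agent.W662.KKS Pool.Agent.Helper278

variable {H : Type} [NormedAddCommGroup H] [InnerProductSpace ℂ H] [CompleteSpace H]

/-- The projection onto the closure of `N' η`. -/
theorem exists_cyclic_proj (N : VonNeumannAlgebra H) (η : H) :
    ∃ q ∈ N, star q = q ∧ q * q = q ∧ ‖q‖ ≤ 1 ∧ q η = η ∧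
      ∀ A B : H →L[ℂ] H, (∀ r ∈ N.commutant, A (r η) = B (r η)) → A * q = B * q := by
  let S : Submodule ℂ H :=
    { carrier := {v | ∃ r ∈ N.commutant, r η = v}
      add_mem' := by
        rintro _ _ ⟨r, hr, rfl⟩ ⟨s, hs, rfl⟩
        exact ⟨r + s, add_mem hr hs, rfl⟩
      zero_mem' := ⟨0, zero_mem _, rfl⟩
      smul_mem' := by
        rintro c _ ⟨r, hr, rfl⟩
        exact ⟨c • r, N.commutant.toStarSubalgebra.smul_mem hr c, rfl⟩ }
  let K : Submodule ℂ H := S.topologicalClosure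
  have : CompleteSpace K := S.isClosed_topologicalClosure.completeSpace_coe
  have hinv : ∀ r ∈ N.commutant, ∀ v ∈ K, r v ∈ K := by
    intro r hr v hv
    have hv' : v ∈ closure (S : Set H) := hv
    have h1 : r v ∈ closure (S : Set H) := by
      refine map_mem_closure r.continuous hv' ?_
      rintro _ ⟨s, hs, rfl⟩
      exact ⟨r * s, mul_mem hr hs, rfl⟩
    exact h1
  have hinv' : ∀ r ∈ N.commutant, ∀ v ∈ Kᗮ, r v ∈ Kᗮ := by
    intro r hr v hv
    rw [Submodule.mem_orthogonal] at hv ⊢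
    intro u hu
    have h1 := hv ((star r) u) (hinv (star r) (star_mem hr) u hu)
    rw [ContinuousLinearMap.star_eq_adjoint, ContinuousLinearMap.adjoint_inner_left] at h1
    exact h1
  have hcomm : ∀ r ∈ N.commutant, r * K.starProjection = K.starProjection * r := by
    intro r hr
    ext v
    change r (K.starProjection v) = K.starProjection (r v)
    symm
    refine Submodule.eq_starProjection_of_mem_orthogonal' (z := r (v - K.starProjection v)) ?_ ?_ ?_
    · exact hinv r hr _ (Submodule.starProjection_apply_mem K v)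
    · exact hinv' r hr _ (Submodule.sub_starProjection_mem_orthogonal v)
    · rw [← map_add, add_sub_cancel]
  refine ⟨K.starProjection, ?_, ?_, ?_, Submodule.starProjection_norm_le K, ?_, ?_⟩
  · rw [← VonNeumannAlgebra.commutant_commutant N, VonNeumannAlgebra.mem_commutant_iff]
    exact hcomm
  · exact isSelfAdjoint_starProjection K
  · exact Submodule.isIdempotentElem_starProjection K
  · rw [Submodule.starProjection_eq_self_iff]
    exact S.le_topologicalClosure ⟨1, one_mem _, rfl⟩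
  · intro A B h
    ext v
    change A (K.starProjection v) = B (K.starProjection v)
    have h1 : (K.starProjection v) ∈ closure (S : Set H) :=
      Submodule.starProjection_apply_mem K v
    have h2 : closure (S : Set H) ⊆ {u | A u = B u} := by
      refine closure_minimal ?_ (isClosed_eq A.continuous B.continuous)
      rintro _ ⟨r, hr, rfl⟩
      exact h r hr
    exact h2 h1

theorem vn_isClosed (M : VonNeumannAlgebra H) : IsClosed (M : Set (H →L[ℂ] H)) := by
  have h : (M : Set (H →L[ℂ] H)) = Set.centralizer (M.commutant : Set (H →L[ℂ] H)) := by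
    ext x
    rw [SetLike.mem_coe, Set.mem_centralizer_iff]
    conv_lhs => rw [← VonNeumannAlgebra.commutant_commutant M,
      VonNeumannAlgebra.mem_commutant_iff]
    rfl
  rw [h]
  exact Set.isClosed_centralizer _

/-- A closed subalgebra that is half dense in a subspace containing it is the whole. -/
theorem mem_of_half {M : VonNeumannAlgebra H} {P : Set (H →L[ℂ] H)}
    (hMP : ∀ x ∈ M, ∀ y ∈ P, y - x ∈ P)
    (hhalf : ∀ y ∈ P, ∃ x ∈ M, ‖y - x‖ ≤ (1 / 2) * ‖y‖) : ∀ y ∈ P, y ∈ M := by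
  intro y hy
  by_contra hyM
  have hne : (M : Set (H →L[ℂ] H)).Nonempty := ⟨1, one_mem M⟩
  have hd : 0 < Metric.infDist y (M : Set (H →L[ℂ] H)) :=
    ((vn_isClosed M).notMem_iff_infDist_pos hne).mp hyM
  obtain ⟨m, hm, hlt⟩ := (Metric.infDist_lt_iff hne).mp
    (show Metric.infDist y (M : Set (H →L[ℂ] H)) < 2 * Metric.infDist y (M : Set (H →L[ℂ] H))
      by linarith)
  obtain ⟨m', hm', hle⟩ := hhalf (y - m) (hMP m hm y hy)
  have h1 : Metric.infDist y (M : Set (H →L[ℂ] H)) ≤ dist y (m + m') :=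
    Metric.infDist_le_dist_of_mem (add_mem hm hm')
  rw [dist_eq_norm] at h1 hlt
  have h2 : y - (m + m') = y - m - m' := by abel
  rw [h2] at h1
  linarith

/-- The vector state of a tracial vector. -/
theorem isII_vector {M : VonNeumannAlgebra H} {τ : Elt M → ℂ} {ξ : H}
    {ρ : (H →L[ℂ] H) → (H →L[ℂ] H)} (hS : Std M ξ ρ) (hM : IsIIOneFactor M τ) :
    IsIIOneFactor M (fun x : Elt M => ⟪ξ, (x : H →L[ℂ] H) ξ⟫_ℂ) := by
  refine ⟨hM.center, hM.infinite, ⟨?_, ?_, ?_⟩, ?_⟩
  · change ⟪ξ, ξ⟫_ℂ = 1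
    rw [inner_self_eq_norm_sq_to_K, hS.unit]
    norm_num
  · intro x y
    exact hS.tr x x.2 y y.2
  · intro x hx
    have h1 : ⟪ξ, (star (x : H →L[ℂ] H)) ((x : H →L[ℂ] H) ξ)⟫_ℂ = 0 := hx
    rw [ContinuousLinearMap.star_eq_adjoint, ContinuousLinearMap.adjoint_inner_right,
      inner_self_eq_zero] at h1
    exact Subtype.ext (hS.sep x x.2 h1)
  · refine ⟨fun k => if k = 0 then ξ else 0, ?_, ?_⟩
    · refine summable_of_ne_finset_zero (s := {0}) ?_
      intro k hk
      rw [Finset.mem_singleton] at hk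
      simp only [if_neg hk, norm_zero]
      norm_num
    · intro x
      rw [tsum_eq_single 0]
      · simp only [if_true]
      · intro k hk
        simp only [if_neg hk, map_zero, inner_zero_left]

theorem hh' (h1 : S_PRJ) (h2 : S_CMP) : S_HH := by
  obtain ⟨K₁, hK1, hPRJ⟩ := h1
  refine ⟨100 * K₁, by linarith, ?_⟩
  intro H _ _ _ M N τ ξ ρ w γ hS hM hγ hγK hw hMN hNM hD
  have hKpos : 0 < K₁ := by linarith
  have hKγ : K₁ * γ ≤ 1 / 100 := by
    have h3 : K₁ * γ ≤ K₁ * (1 / (100 * K₁)) := mul_le_mul_of_nonneg_left hγK hKpos.le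
    have h4 : K₁ * (1 / (100 * K₁)) = 1 / 100 := by field_simp
    linarith
  have hγ1 : γ ≤ 1 / 100 := by
    have : γ ≤ K₁ * γ := by nlinarith
    linarith
  set W : H →L[ℂ] H := ((w⁻¹ : (H →L[ℂ] H)ˣ) : H →L[ℂ] H) with hW
  set u : H →L[ℂ] H := (w : H →L[ℂ] H) with hu
  have huW : u * W = 1 := w.mul_inv
  have hWu : W * u = 1 := w.inv_mul
  have hone : ‖(1 : H →L[ℂ] H)‖ ≤ 1 := ContinuousLinearMap.norm_id_le
  have hWn : ‖W‖ ≤ 3 / 2 := by
    have h3 : W = 1 - W * (u - 1) := by rw [mul_sub, hWu, mul_one]; abel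
    have h4 : ‖W‖ ≤ 1 + ‖W‖ * γ := by
      calc ‖W‖ = ‖1 - W * (u - 1)‖ := by rw [← h3]
        _ ≤ ‖(1 : H →L[ℂ] H)‖ + ‖W * (u - 1)‖ := norm_sub_le _ _
        _ ≤ 1 + ‖W‖ * γ := add_le_add hone ((norm_mul_le _ _).trans
            (mul_le_mul_of_nonneg_left hw (norm_nonneg _)))
    nlinarith [norm_nonneg W]
  -- conjugation moves little
  have hconj : ∀ x : H →L[ℂ] H, ‖u * x * W - x‖ ≤ 3 * γ * ‖x‖ := by
    intro x
    have h3 : u * x * W - x = ((u - 1) * x - x * (u - 1)) * W := by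
      have h4 : x = x * (u * W) := by rw [huW, mul_one]
      calc u * x * W - x = u * x * W - x * (u * W) := by rw [← h4]
        _ = ((u - 1) * x - x * (u - 1)) * W := by noncomm_ring
    rw [h3]
    have h5 : ‖(u - 1) * x - x * (u - 1)‖ ≤ 2 * γ * ‖x‖ := by
      have h6 : ‖(u - 1) * x‖ ≤ γ * ‖x‖ := (norm_mul_le _ _).trans
        (mul_le_mul_of_nonneg_right hw (norm_nonneg _))
      have h7 : ‖x * (u - 1)‖ ≤ ‖x‖ * γ := (norm_mul_le _ _).trans
        (mul_le_mul_of_nonneg_left hw (norm_nonneg _))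
      have h8 := norm_sub_le ((u - 1) * x) (x * (u - 1))
      linarith
    calc ‖((u - 1) * x - x * (u - 1)) * W‖ ≤ ‖(u - 1) * x - x * (u - 1)‖ * ‖W‖ := norm_mul_le _ _
      _ ≤ (2 * γ * ‖x‖) * (3 / 2) := mul_le_mul h5 hWn (norm_nonneg _) (by positivity)
      _ = 3 * γ * ‖x‖ := by ring
  obtain ⟨q, hqN, hqs, hqq, hqn, hqη, hq⟩ := exists_cyclic_proj N (u ξ)
  -- commutation at the vector
  have hvec : ∀ x ∈ M, ∀ r ∈ N.commutant, (u * x * W) (r (u ξ)) = r ((u * x * W) (u ξ)) := by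
    intro x hx r hr
    have hrQ : W * r * u ∈ conj w N.commutant := by
      change u * (W * r * u) * W ∈ N.commutant
      have h3 : u * (W * r * u) * W = (u * W) * r * (u * W) := by noncomm_ring
      rw [h3, huW, one_mul, mul_one]
      exact hr
    have h3 := hD x hx _ hrQ
    rw [zero_mul, zero_mul, norm_le_zero_iff] at h3
    have h3 : (x * (W * r * u)) ξ = ((W * r * u) * x) ξ := sub_eq_zero.mp h3
    have h4 := congrArg u h3
    have h5 : u ((x * (W * r * u)) ξ) = (u * x * W) (r (u ξ)) := rfl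
    have h6 : u ((W * r * u * x) ξ) = ((u * W) * r * (u * x)) ξ := rfl
    have h7 : r ((u * x * W) (u ξ)) = (r * (u * x * (W * u))) ξ := rfl
    rw [h5, h6, huW, one_mul] at h4
    rw [h4, h7, hWu, mul_one]
  have hmem : ∀ x ∈ M, (u * x * W) * q ∈ N := by
    intro x hx
    rw [← VonNeumannAlgebra.commutant_commutant N, VonNeumannAlgebra.mem_commutant_iff]
    intro r hr
    have hqr : r * q = q * r := by
      have h3 : q ∈ N.commutant.commutant := by
        rw [VonNeumannAlgebra.commutant_commutant]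
        exact hqN
      exact (VonNeumannAlgebra.mem_commutant_iff.mp h3) r hr
    have h3 : (r * (u * x * W)) * q = ((u * x * W) * r) * q := by
      refine hq _ _ fun s hs => ?_
      change r ((u * x * W) (s (u ξ))) = (u * x * W) (r (s (u ξ)))
      rw [hvec x hx s hs]
      have h4 := hvec x hx (r * s) (mul_mem hr hs)
      exact h4.symm
    calc r * ((u * x * W) * q) = (r * (u * x * W)) * q := (mul_assoc _ _ _).symm
      _ = ((u * x * W) * r) * q := h3
      _ = (u * x * W) * (r * q) := mul_assoc _ _ _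
      _ = (u * x * W) * (q * r) := by rw [hqr]
      _ = (u * x * W) * q * r := (mul_assoc _ _ _).symm
  -- the projection in `M`
  obtain ⟨y, hyM, hy⟩ := hNM q hqN
  have hy' : ‖q - y‖ ≤ γ := hy.trans (by nlinarith)
  have hγK1 : γ ≤ 1 / K₁ := hγK.trans (by
    apply one_div_le_one_div_of_le hKpos
    linarith)
  obtain ⟨v₀, hv₀, hv₀1, hpM⟩ := hPRJ H M q γ hqs hqq hγ.le hγK1 ⟨y, hyM, hy'⟩
  set p : H →L[ℂ] H := star v₀ * q * v₀ with hp
  have hvv : v₀ * star v₀ = 1 := (Unitary.mem_iff.mp hv₀).2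
  have hvv' : star v₀ * v₀ = 1 := (Unitary.mem_iff.mp hv₀).1
  have hps : star p = p := by
    rw [hp, star_mul, star_mul, star_star, hqs, mul_assoc]
  have hpp : p * p = p := by
    calc p * p = star v₀ * q * (v₀ * star v₀) * q * v₀ := by rw [hp]; noncomm_ring
      _ = star v₀ * (q * q) * v₀ := by rw [hvv]; noncomm_ring
      _ = p := by rw [hqq]
  have hv0n : ‖v₀‖ ≤ 1 := by
    have h3 : ‖v₀‖ * ‖v₀‖ ≤ 1 := by
      rw [← CStarRing.norm_star_mul_self, hvv']
      exact hone
    nlinarith [norm_nonneg v₀]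
  have hqp : ‖q - p‖ ≤ 2 * (K₁ * γ) := by
    have h3 : q - p = (1 - star v₀) * q + star v₀ * q * (1 - v₀) := by
      rw [hp]; noncomm_ring
    have h4 : ‖(1 : H →L[ℂ] H) - v₀‖ ≤ K₁ * γ := by rw [norm_sub_rev]; exact hv₀1
    have h5 : ‖(1 : H →L[ℂ] H) - star v₀‖ ≤ K₁ * γ := by
      have h6 : (1 : H →L[ℂ] H) - star v₀ = star (1 - v₀) := by rw [star_sub, star_one]
      rw [h6, norm_star]
      exact h4
    have h6 : ‖(1 - star v₀) * q‖ ≤ K₁ * γ := by
      calc ‖(1 - star v₀) * q‖ ≤ ‖(1 : H →L[ℂ] H) - star v₀‖ * ‖q‖ := norm_mul_le _ _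
        _ ≤ (K₁ * γ) * 1 := mul_le_mul h5 hqn (norm_nonneg _) (by positivity)
        _ = K₁ * γ := mul_one _
    have h7 : ‖star v₀ * q * (1 - v₀)‖ ≤ K₁ * γ := by
      calc ‖star v₀ * q * (1 - v₀)‖ ≤ ‖star v₀ * q‖ * ‖(1 : H →L[ℂ] H) - v₀‖ := norm_mul_le _ _
        _ ≤ 1 * (K₁ * γ) := by
          refine mul_le_mul ?_ h4 (norm_nonneg _) zero_le_one
          calc ‖star v₀ * q‖ ≤ ‖star v₀‖ * ‖q‖ := norm_mul_le _ _
            _ ≤ 1 * 1 := mul_le_mul (by rw [norm_star]; exact hv0n) hqn (norm_nonneg _)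
                zero_le_one
            _ = 1 := mul_one _
        _ = K₁ * γ := one_mul _
    rw [h3]
    have h8 := norm_add_le ((1 - star v₀) * q) (star v₀ * q * (1 - v₀))
    linarith
  have hpn : ‖p‖ ≤ 1 := by
    calc ‖star v₀ * q * v₀‖ ≤ ‖star v₀ * q‖ * ‖v₀‖ := norm_mul_le _ _
      _ ≤ (‖star v₀‖ * ‖q‖) * ‖v₀‖ := mul_le_mul_of_nonneg_right (norm_mul_le _ _) (norm_nonneg _)
      _ ≤ (1 * 1) * 1 := by
        refine mul_le_mul (mul_le_mul (by rw [norm_star]; exact hv0n) hqn (norm_nonneg _)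
          zero_le_one) hv0n (norm_nonneg _) (by norm_num)
      _ = 1 := by norm_num
  have hpxi : 1 / 2 ≤ (⟪ξ, p ξ⟫_ℂ).re := by
    have h3 : (1 - p) ξ = (q - p) ξ - (u - 1) ξ + q ((u - 1) ξ) := by
      have h4 : q (u ξ) = u ξ := hqη
      change ξ - p ξ = (q ξ - p ξ) - (u ξ - ξ) + q (u ξ - ξ)
      rw [map_sub, h4]
      abel
    have h4 : ‖(1 - p) ξ‖ ≤ 2 * (K₁ * γ) + 2 * γ := by
      rw [h3]
      have h5 : ‖(q - p) ξ‖ ≤ 2 * (K₁ * γ) := by
        have := (q - p).le_opNorm ξ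
        rw [hS.unit, mul_one] at this
        exact this.trans hqp
      have h6 : ‖(u - 1) ξ‖ ≤ γ := by
        have := (u - 1).le_opNorm ξ
        rw [hS.unit, mul_one] at this
        exact this.trans hw
      have h7 : ‖q ((u - 1) ξ)‖ ≤ γ := by
        have := q.le_opNorm ((u - 1) ξ)
        nlinarith [norm_nonneg ((u - 1) ξ), norm_nonneg q]
      have h8 := norm_add_le ((q - p) ξ - (u - 1) ξ) (q ((u - 1) ξ))
      have h9 := norm_sub_le ((q - p) ξ) ((u - 1) ξ)
      linarith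
    have h5 : (⟪ξ, p ξ⟫_ℂ).re = 1 - ‖(1 - p) ξ‖ ^ 2 := by
      have h6 : ‖p ξ‖ ^ 2 = (⟪ξ, p ξ⟫_ℂ).re := by
        have h7 : ⟪p ξ, p ξ⟫_ℂ = ⟪ξ, p ξ⟫_ℂ := by
          have h8 : ⟪(star p) (p ξ), ξ⟫_ℂ = ⟪p ξ, p ξ⟫_ℂ := by
            rw [ContinuousLinearMap.star_eq_adjoint, ContinuousLinearMap.adjoint_inner_left]
          have h9 : (star p) (p ξ) = p ξ := by
            rw [hps]
            exact congrArg (fun z : H →L[ℂ] H => z ξ) hpp
          rw [← h8, h9]
          have h10 : ⟪(star p) ξ, ξ⟫_ℂ = ⟪ξ, p ξ⟫_ℂ := by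
            rw [ContinuousLinearMap.star_eq_adjoint, ContinuousLinearMap.adjoint_inner_left]
          rw [hps] at h10
          exact h10
        rw [← h7, inner_self_eq_norm_sq_to_K]
        norm_cast
      have h7 : ‖(1 - p) ξ‖ ^ 2 = ‖ξ‖ ^ 2 - 2 * (⟪ξ, p ξ⟫_ℂ).re + ‖p ξ‖ ^ 2 := by
        have h8 : (1 - p) ξ = ξ - p ξ := rfl
        rw [h8, norm_sub_sq (𝕜 := ℂ)]
        rfl
      rw [h7, h6, hS.unit]
      ring
    rw [h5]
    nlinarith [norm_nonneg ((1 - p) ξ)]
  obtain ⟨v, hvM, hv1, hv2⟩ := h2 H M ξ (isII_vector hS hM) p hpM hps hpp hpxi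
  have hvn : ‖v‖ ≤ 1 := by
    have h3 : ‖v‖ * ‖v‖ ≤ 1 := by
      rw [← CStarRing.norm_star_mul_self, hv1]
      have h4 : (1 - p) * (1 - p) = 1 - p := by
        calc (1 - p) * (1 - p) = 1 - p - p + p * p := by noncomm_ring
          _ = 1 - p := by rw [hpp]; abel
      have h5 : star (1 - p) = 1 - p := by rw [star_sub, star_one, hps]
      have h6 : ‖1 - p‖ * ‖1 - p‖ = ‖1 - p‖ := by
        rw [← CStarRing.norm_star_mul_self, h5, h4]
      by_contra h7
      push Not at h7
      nlinarith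
    nlinarith [norm_nonneg v]
  obtain ⟨n, hnN, hn⟩ := hMN v hvM
  have hn' : ‖v - n‖ ≤ γ := hn.trans (by nlinarith [norm_nonneg v])
  have hnn : ‖n‖ ≤ 2 := by
    have h3 : n = v - (v - n) := by abel
    have h4 := norm_sub_le v (v - n)
    rw [← h3] at h4
    linarith
  -- the invertible element
  set Y : H →L[ℂ] H := (u * star v * W) * q * n + q with hY
  have hYN : Y ∈ N := add_mem (mul_mem (hmem (star v) (star_mem hvM)) hnN) hqN
  have hY1 : ‖1 - Y‖ < 1 := by
    have h3 : star v * p * v = 1 - p := by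
      rw [mul_assoc, hv2, hv1]
    have h4 : 1 - Y = -((u * star v * W - star v) * q * n + star v * q * (n - v)
        + star v * (q - p) * v + (q - p)) := by
      have h5 : (1 : H →L[ℂ] H) = star v * p * v + p := by rw [h3]; abel
      calc 1 - Y = (star v * p * v + p) - Y := by rw [← h5]
        _ = _ := by rw [hY]; noncomm_ring
    rw [h4, norm_neg]
    have hsn : ‖star v‖ ≤ 1 := by rw [norm_star]; exact hvn
    have e1 : ‖(u * star v * W - star v) * q * n‖ ≤ 6 * γ := by
      calc ‖(u * star v * W - star v) * q * n‖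
          ≤ ‖(u * star v * W - star v) * q‖ * ‖n‖ := norm_mul_le _ _
        _ ≤ (‖u * star v * W - star v‖ * ‖q‖) * ‖n‖ :=
          mul_le_mul_of_nonneg_right (norm_mul_le _ _) (norm_nonneg _)
        _ ≤ ((3 * γ * 1) * 1) * 2 := by
          refine mul_le_mul (mul_le_mul ?_ hqn (norm_nonneg _) (by positivity)) hnn
            (norm_nonneg _) (by positivity)
          exact (hconj (star v)).trans (mul_le_mul_of_nonneg_left hsn (by positivity))
        _ = 6 * γ := by ring
    have e2 : ‖star v * q * (n - v)‖ ≤ γ := by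
      calc ‖star v * q * (n - v)‖ ≤ ‖star v * q‖ * ‖n - v‖ := norm_mul_le _ _
        _ ≤ (‖star v‖ * ‖q‖) * ‖n - v‖ :=
          mul_le_mul_of_nonneg_right (norm_mul_le _ _) (norm_nonneg _)
        _ ≤ (1 * 1) * γ := by
          refine mul_le_mul (mul_le_mul hsn hqn (norm_nonneg _) zero_le_one) ?_
            (norm_nonneg _) (by norm_num)
          rw [norm_sub_rev]
          exact hn'
        _ = γ := by ring
    have e3 : ‖star v * (q - p) * v‖ ≤ 2 * (K₁ * γ) := by
      calc ‖star v * (q - p) * v‖ ≤ ‖star v * (q - p)‖ * ‖v‖ := norm_mul_le _ _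
        _ ≤ (‖star v‖ * ‖q - p‖) * ‖v‖ :=
          mul_le_mul_of_nonneg_right (norm_mul_le _ _) (norm_nonneg _)
        _ ≤ (1 * (2 * (K₁ * γ))) * 1 := by
          refine mul_le_mul (mul_le_mul hsn hqp (norm_nonneg _) zero_le_one) hvn
            (norm_nonneg _) (by positivity)
        _ = 2 * (K₁ * γ) := by ring
    have a1 := norm_add_le ((u * star v * W - star v) * q * n + star v * q * (n - v)
        + star v * (q - p) * v) (q - p)
    have a2 := norm_add_le ((u * star v * W - star v) * q * n + star v * q * (n - v))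
        (star v * (q - p) * v)
    have a3 := norm_add_le ((u * star v * W - star v) * q * n) (star v * q * (n - v))
    linarith
  have hYu : IsUnit Y := by
    have h3 := isUnit_one_sub_of_norm_lt_one hY1
    rwa [sub_sub_cancel] at h3
  obtain ⟨Yu, hYu'⟩ := hYu
  have hYi : Y * ((Yu⁻¹ : (H →L[ℂ] H)ˣ) : H →L[ℂ] H) = 1 := by
    rw [← hYu']; exact Yu.mul_inv
  have hYi' : ((Yu⁻¹ : (H →L[ℂ] H)ˣ) : H →L[ℂ] H) * Y = 1 := by
    rw [← hYu']; exact Yu.inv_mul
  have hYiN : ((Yu⁻¹ : (H →L[ℂ] H)ˣ) : H →L[ℂ] H) ∈ N := inv_mem_vn N hYN hYi hYi'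
  have hMP : ∀ x ∈ M, u * x * W ∈ N := by
    intro x hx
    have h3 : (u * x * W) * Y ∈ N := by
      have h4 : (u * x * W) * Y = (u * (x * star v) * W) * q * n + (u * x * W) * q := by
        have h5 : (u * x * W) * (u * star v * W) = u * (x * star v) * W := by
          calc (u * x * W) * (u * star v * W) = u * x * (W * u) * star v * W := by noncomm_ring
            _ = u * (x * star v) * W := by rw [hWu]; noncomm_ring
        calc (u * x * W) * Y = ((u * x * W) * (u * star v * W)) * q * n + (u * x * W) * q := by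
              rw [hY]; noncomm_ring
          _ = _ := by rw [h5]
      rw [h4]
      exact add_mem (mul_mem (hmem _ (mul_mem hx (star_mem hvM))) hnN) (hmem x hx)
    have h4 : u * x * W = ((u * x * W) * Y) * ((Yu⁻¹ : (H →L[ℂ] H)ˣ) : H →L[ℂ] H) := by
      rw [mul_assoc (u * x * W) Y, hYi, mul_one]
    rw [h4]
    exact mul_mem h3 hYiN
  refine Set.Subset.antisymm (fun x hx => hMP x hx) ?_
  refine mem_of_half (M := M) (P := conj w N) ?_ ?_
  · intro x hx y hy
    change u * (y - x) * W ∈ N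
    have h3 : u * (y - x) * W = u * y * W - u * x * W := by noncomm_ring
    rw [h3]
    exact sub_mem hy (hMP x hx)
  · intro y hy
    have hy2 : u * y * W ∈ N := hy
    obtain ⟨m, hm, hle⟩ := hNM _ hy2
    refine ⟨m, hm, ?_⟩
    have h3 := hconj y
    have h4 : ‖u * y * W‖ ≤ 2 * ‖y‖ := by
      have h5 : u * y * W = y + (u * y * W - y) := by abel
      have h6 := norm_add_le y (u * y * W - y)
      rw [← h5] at h6
      nlinarith [norm_nonneg y]
    have h5 : y - m = (u * y * W - m) - (u * y * W - y) := by abel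
    have h6 := norm_sub_le (u * y * W - m) (u * y * W - y)
    rw [← h5] at h6
    have h7 : γ * ‖u * y * W‖ ≤ γ * (2 * ‖y‖) := mul_le_mul_of_nonneg_left h4 hγ.le
    nlinarith [norm_nonneg y]

end Pool.Agent.W82.KKS
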